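import Pool.Agent.Q161.ShM

set_option autoImplicit false

/-!
# Schrijver-extremal sequences of regular bipartite graphs have essentially large girth

Let `d ≥ 1` and let `G n` be finite `d`-regular bipartite graphs with
`log (pm (G n)) / v (G n) → lam_d = ½ log ((d - 1) ^ (d - 1) / d ^ (d - 2))`.
Then for every `k ≥ 3` the number of cycles of length `k` of `G n` is `o (v (G n))`.

Proof: quantitative form `c (number of k-cycles) ≤ log pm - lam_d v` (`stability`).  A cycle of the
graph contains a shortest cycle block of columns `J`; in the capacity proof of the inequality of
Schrijver the columns of `J` are eliminated at the same time, and the product of the losses is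
strictly better than the product of the single losses by a factor `1 + δ` which depends only on
`d` and `k` (the identity `Z (p)² = Z (two-fold cover) + 2 p₀ Dl` for the entry `p₀` of an edge of the
cycle, and compactness).  Blocks with disjoint neighbourhoods give independent gains, and a greedy
choice gives a positive proportion of the cycles.
-/

namespace Pool.Agent.Results.MP_ebeb23_co.ExtremalLargeGirth

open Filter Topology

/-- a sequence of finite `d`-regular bipartite graphs whose number of perfect matchings is
asymptotically extremal for the inequality of Schrijver has essentially large girth -/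
theorem result :
    ∀ d : ℕ, 0 < d → ∀ (V : ℕ → Type*) [∀ n, Fintype (V n)] (G : ∀ n, SimpleGraph (V n))
      [∀ n, DecidableRel (G n).Adj],
      (∀ n, (G n).IsBipartite) → (∀ n, (G n).IsRegularOfDegree d) →
      Tendsto (fun n => Real.log ({M : (G n).Subgraph | M.IsPerfectMatching}.ncard : ℝ) /
          (Fintype.card (V n) : ℝ)) atTop
        (𝓝 ((1 / 2) * Real.log (((d : ℝ) - 1) ^ (d - 1) / (d : ℝ) ^ ((d : ℤ) - 2)))) →
      ∀ k : ℕ, 3 ≤ k →
        Tendsto (fun n => ({H : (G n).Subgraph |
            Nonempty (SimpleGraph.cycleGraph k ≃g H.coe)}.ncard : ℝ) /
          (Fintype.card (V n) : ℝ)) atTop (𝓝 0) := by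
  intro d hd V _ G _ hbip hreg hlim k hk
  exact Pool.Agent.Q161.Sh.large_girth d hd V G hbip hreg hlim k hk

end Pool.Agent.Results.MP_ebeb23_co.ExtremalLargeGirth
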